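import Mathlib
import Pool.Agent.Results.MP_7c03a7_pr.DimGtOne

set_option autoImplicit false

open MeasureTheory ProbabilityTheory
open scoped ENNReal NNReal

/-!
# Every countably infinite group has a generating measure with a finite percolation threshold

Let `e : Γ ≃ ℕ` and give `g` the weight `φ (e g) + φ (e g⁻¹)` with `φ n = (n + 1)^(-3/2)`. For a set
`S` with `s` elements and `x ∈ S`, at least `s` of the `2 s` elements `x g` with `e g < 2 s` lie
outside `S`, so that `|∂S| ≥ s² φ (2 s - 1) / Z`, which is of order `√s`. Hence the isoperimetric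
dimension is at least `2`, and the threshold is finite by the theorem
`Pool.Agent.Results.MP_7c03a7_pr.DimGtOne.result`.
-/

namespace Pool.Agent.Results.MP_9aa340_pr.EveryGroup

open Pool.Agent.Results.MP_7c03a7_pr.DimGtOne

/-- the decreasing weights -/
noncomputable def phi (n : ℕ) : ℝ≥0∞ := ENNReal.ofReal (1 / ((n : ℝ) + 1) ^ (3 / 2 : ℝ))

theorem phi_pos (n : ℕ) : 0 < phi n := ENNReal.ofReal_pos.2 (by positivity)

theorem phi_anti {m n : ℕ} (h : m ≤ n) : phi n ≤ phi m := by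
  apply ENNReal.ofReal_le_ofReal
  apply one_div_le_one_div_of_le (by positivity)
  apply Real.rpow_le_rpow (by positivity) _ (by norm_num)
  have : (m : ℝ) ≤ n := by exact_mod_cast h
  linarith

theorem phi_summable : ∑' n, phi n ≠ ⊤ := by
  have h : Summable fun n : ℕ => 1 / ((n : ℝ) + 1) ^ (3 / 2 : ℝ) := by
    have h1 := (Real.summable_one_div_nat_rpow (p := 3 / 2)).2 (by norm_num)
    have h2 := (summable_nat_add_iff 1).2 h1
    simpa using h2
  exact h.tsum_ofReal_ne_top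

variable {Γ : Type*} [Group Γ]

/-- the unnormalised weights on the group -/
noncomputable def wt (e : Γ ≃ ℕ) (g : Γ) : ℝ≥0∞ := phi (e g) + phi (e g⁻¹)

theorem wt_pos (e : Γ ≃ ℕ) (g : Γ) : wt e g ≠ 0 :=
  ((phi_pos (e g)).trans_le le_self_add).ne'

theorem wt_tsum (e : Γ ≃ ℕ) : ∑' g, wt e g ≠ ⊤ := by
  unfold wt
  rw [ENNReal.tsum_add]
  have h1 : ∑' g, phi (e g) = ∑' n, phi n := e.tsum_eq phi
  have h2 : ∑' g : Γ, phi (e g⁻¹) = ∑' n, phi n := ((Equiv.inv Γ).trans e).tsum_eq phi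
  rw [h1, h2]
  exact ENNReal.add_ne_top.2 ⟨phi_summable, phi_summable⟩

theorem wt_tsum_ne_zero (e : Γ ≃ ℕ) : ∑' g, wt e g ≠ 0 := by
  intro h
  exact wt_pos e 1 (ENNReal.tsum_eq_zero.1 h 1)

/-- The generating measure. -/
noncomputable def mu (e : Γ ≃ ℕ) : GeneratingMeasure Γ where
  mass := PMF.normalize (wt e) (wt_tsum_ne_zero e) (wt_tsum e)
  symm := fun g => by
    rw [PMF.normalize_apply, PMF.normalize_apply]
    unfold wt
    rw [inv_inv, add_comm]
  gen := by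
    have : (PMF.normalize (wt e) (wt_tsum_ne_zero e) (wt_tsum e)).support = Set.univ := by
      ext g
      simp [PMF.mem_support_normalize_iff, wt_pos e g]
    rw [this, Subgroup.closure_univ]

theorem boundary_ge (e : Γ ≃ ℕ) (S : Finset Γ) (hS : S.Nonempty) :
    (S.card : ℝ≥0∞) * (S.card * (phi (2 * S.card) * (∑' g, wt e g)⁻¹)) ≤ boundary (mu e) S := by
  classical
  set s := S.card with hs
  unfold boundary
  rw [hs, ← nsmul_eq_mul]
  apply Finset.card_nsmul_le_sum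
  intro x _
  rw [← hs]
  -- the elements `x g` with `e g < 2 s` outside `S`
  set B : Finset Γ := ((Finset.range (2 * s)).map e.symm.toEmbedding).image (fun g => x * g) with hB
  have hBcard : B.card = 2 * s := by
    rw [hB, Finset.card_image_of_injective _ (mul_right_injective x), Finset.card_map,
      Finset.card_range]
  have hT : s ≤ (B \ S).card := by
    have := Finset.le_card_sdiff S B
    omega
  have hmem : ∀ h ∈ B \ S, h ∉ S := fun h hh => (Finset.mem_sdiff.1 hh).2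
  have h1 : ∑ h ∈ (B \ S), (mu e).mass (x⁻¹ * h) ≤
      ∑' h : {h : Γ // h ∉ S}, (mu e).mass (x⁻¹ * (h : Γ)) := by
    have h2 : ∑ h ∈ (B \ S), (mu e).mass (x⁻¹ * h) =
        ∑ h ∈ (B \ S).subtype (fun h => h ∉ S), (mu e).mass (x⁻¹ * (h : Γ)) := by
      rw [Finset.sum_subtype_of_mem (fun h => (mu e).mass (x⁻¹ * h)) hmem]
    rw [h2]
    exact ENNReal.sum_le_tsum _
  refine le_trans ?_ h1
  have h3 : ∀ h ∈ B \ S, phi (2 * s) * (∑' g, wt e g)⁻¹ ≤ (mu e).mass (x⁻¹ * h) := by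
    intro h hh
    obtain ⟨g, hg, rfl⟩ := Finset.mem_image.1 (Finset.mem_sdiff.1 hh).1
    obtain ⟨n, hn, rfl⟩ := Finset.mem_map.1 hg
    show _ ≤ (PMF.normalize (wt e) (wt_tsum_ne_zero e) (wt_tsum e)) _
    rw [PMF.normalize_apply, inv_mul_cancel_left]
    apply mul_le_mul_left
    unfold wt
    refine le_trans (phi_anti ?_) le_self_add
    simp only [Equiv.coe_toEmbedding, Equiv.apply_symm_apply]
    exact (Finset.mem_range.1 hn).le
  have h4 := Finset.card_nsmul_le_sum _ _ _ h3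
  refine le_trans ?_ h4
  rw [nsmul_eq_mul]
  apply mul_le_mul_left
  exact_mod_cast hT

theorem one_lt_dim (e : Γ ≃ ℕ) : 1 < dim (mu e) := by
  refine lt_of_lt_of_le (b := ENNReal.ofReal 2) (by
    rw [← ENNReal.ofReal_one]
    exact (ENNReal.ofReal_lt_ofReal_iff (by norm_num)).2 (by norm_num)) ?_
  apply le_sSup
  refine ⟨2, by norm_num, ?_, rfl⟩
  set Z : ℝ≥0∞ := (∑' g, wt e g)⁻¹ with hZ
  have hZ0 : 0 < Z := ENNReal.inv_pos.2 (wt_tsum e)
  have hc : (0 : ℝ≥0∞) < ENNReal.ofReal (1 / 3 ^ (3 / 2 : ℝ)) * Z :=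
    ENNReal.mul_pos (ENNReal.ofReal_pos.2 (by positivity)).ne' hZ0.ne'
  refine lt_of_lt_of_le hc ?_
  refine le_iInf₂ fun S hS => ?_
  have hs1 : 1 ≤ S.card := Finset.card_pos.2 hS
  have hs : (1 : ℝ) ≤ S.card := by exact_mod_cast hs1
  have hpos : (0 : ℝ) < (S.card : ℝ) ^ (((2 : ℝ) - 1) / 2) :=
    Real.rpow_pos_of_pos (by linarith) _
  rw [ENNReal.le_div_iff_mul_le (Or.inl (ENNReal.ofReal_pos.2 hpos).ne')
    (Or.inl ENNReal.ofReal_ne_top)]
  refine le_trans ?_ (boundary_ge e S hS)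
  have h1 : (S.card : ℝ≥0∞) = ENNReal.ofReal (S.card : ℝ) := by
    rw [ENNReal.ofReal_natCast]
  have h2 : ENNReal.ofReal (1 / 3 ^ (3 / 2 : ℝ)) * Z * ENNReal.ofReal ((S.card : ℝ) ^ (((2 : ℝ) - 1) / 2)) =
      ENNReal.ofReal (1 / 3 ^ (3 / 2 : ℝ) * (S.card : ℝ) ^ (((2 : ℝ) - 1) / 2)) * Z := by
    rw [ENNReal.ofReal_mul (by positivity)]
    ring
  have h3 : (S.card : ℝ≥0∞) * (S.card * (phi (2 * S.card) * Z)) =
      ENNReal.ofReal ((S.card : ℝ) * (S.card * (1 / (((2 * S.card : ℕ) : ℝ) + 1) ^ (3 / 2 : ℝ)))) * Z := by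
    rw [ENNReal.ofReal_mul (by positivity), ENNReal.ofReal_mul (by positivity), ← h1]
    unfold phi
    ring
  rw [h2, h3]
  apply mul_le_mul_left
  apply ENNReal.ofReal_le_ofReal
  -- `3^(-3/2) √s ≤ s² (2 s + 1)^(-3/2)`
  have h4 : (((2 * S.card : ℕ) : ℝ) + 1) ^ (3 / 2 : ℝ) ≤
      (3 : ℝ) ^ (3 / 2 : ℝ) * (S.card : ℝ) ^ (3 / 2 : ℝ) := by
    rw [← Real.mul_rpow (by norm_num) (by linarith)]
    apply Real.rpow_le_rpow (by positivity) _ (by norm_num)
    push_cast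
    linarith
  have h5 : (S.card : ℝ) * S.card = (S.card : ℝ) ^ (((2 : ℝ) - 1) / 2) * (S.card : ℝ) ^ (3 / 2 : ℝ) := by
    rw [← Real.rpow_add (by linarith), ← sq, ← Real.rpow_natCast]
    norm_num
  have h6 : (S.card : ℝ) * (S.card * (1 / (((2 * S.card : ℕ) : ℝ) + 1) ^ (3 / 2 : ℝ))) =
      (S.card : ℝ) ^ (((2 : ℝ) - 1) / 2) * (S.card : ℝ) ^ (3 / 2 : ℝ) /
        (((2 * S.card : ℕ) : ℝ) + 1) ^ (3 / 2 : ℝ) := by
    rw [← h5]
    ring
  rw [h6, le_div_iff₀ (by positivity)]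
  have h7 : (0 : ℝ) < 3 ^ (3 / 2 : ℝ) := by positivity
  calc 1 / 3 ^ (3 / 2 : ℝ) * (S.card : ℝ) ^ (((2 : ℝ) - 1) / 2) *
        (((2 * S.card : ℕ) : ℝ) + 1) ^ (3 / 2 : ℝ)
      ≤ 1 / 3 ^ (3 / 2 : ℝ) * (S.card : ℝ) ^ (((2 : ℝ) - 1) / 2) *
        ((3 : ℝ) ^ (3 / 2 : ℝ) * (S.card : ℝ) ^ (3 / 2 : ℝ)) := by
        apply mul_le_mul_of_nonneg_left h4 (by positivity)
    _ = (S.card : ℝ) ^ (((2 : ℝ) - 1) / 2) * (S.card : ℝ) ^ (3 / 2 : ℝ) := by
        field_simp

/-- **Every countably infinite group `Γ` admits a generating measure `μ` whose support is all of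
`Γ`, whose isoperimetric dimension is larger than `1`, and whose critical parameter is finite.** -/
theorem result (Γ : Type*) [Group Γ] [Countable Γ] [Infinite Γ] :
    ∃ μ : GeneratingMeasure Γ, μ.mass.support = Set.univ ∧ 1 < dim μ ∧ criticalParameter μ < ⊤ := by
  obtain ⟨hd⟩ := nonempty_denumerable Γ
  let e : Γ ≃ ℕ := Denumerable.eqv Γ
  refine ⟨mu e, ?_, one_lt_dim e,
    Pool.Agent.Results.MP_7c03a7_pr.DimGtOne.result Γ (mu e) (one_lt_dim e)⟩
  ext g
  simp [mu, PMF.mem_support_normalize_iff, wt_pos e g]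

end Pool.Agent.Results.MP_9aa340_pr.EveryGroup
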